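import Pool.Agent.helper59.FI4.SpecI

set_option autoImplicit false

namespace Pool.Agent.FI4I

open Pool.Agent.helper58.DC Pool.Agent.DI Pool.Agent.GR Pool.Agent.OB Pool.Agent.DR Pool.Agent.FI Pool.Agent.FI3 Pool.Agent.FI4

theorem HYN (hTR3 : TR3_stmt) (hTRT : TRT_stmt) : HYN_stmt := by
  intro p M hM G _ _ D N hDN hCN θ hθ h
  have e1 := hTRT G M D N hDN hCN θ hθ
  obtain ⟨t1, t2, t3, t4, t5⟩ := hTR3 p G N
  have e2 : cz (D.subgroupOf N) = (cz D).subgroupOf N := (t1 D hDN).1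
  have hle : cz D ≤ TT M D θ := cz_le_TT
  have e3 : iI M (D.subgroupOf N) (rN N θ) = (cz D).relIndex (TT M D θ ⊓ N) := by
    unfold iI
    rw [e1, e2]
    have e4 : (TT M D θ).subgroupOf N = (TT M D θ ⊓ N).subgroupOf N := by
      ext n
      simp [Subgroup.mem_subgroupOf]
    rw [e4]
    exact t5 _ _ (le_inf hle hCN) inf_le_right
  have e5 : (cz D).relIndex (TT M D θ ⊓ N) ≤ iI M D θ := by
    have h1 := Subgroup.relIndex_mul_relIndex (cz D) (TT M D θ ⊓ N) (TT M D θ) (le_inf hle hCN) inf_le_left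
    unfold iI
    rw [← h1]
    refine Nat.le_mul_of_pos_right _ (Nat.pos_of_ne_zero ?_)
    exact Subgroup.index_ne_zero_of_finite
  have e6 : (RG M D θ).ncard ≤ (RG M (D.subgroupOf N) (rN N θ)).ncard := by
    have hsub : RG M D θ ⊆ (fun n : N => (n : G)) '' RG M (D.subgroupOf N) (rN N θ) := by
      intro u hu
      refine ⟨⟨u, hDN hu.1⟩, ⟨?_, ?_⟩, rfl⟩
      · rw [Subgroup.mem_subgroupOf]
        exact hu.1
      · intro t ht htu
        rw [e1, Subgroup.mem_subgroupOf] at ht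
        rw [e2, Subgroup.mem_subgroupOf]
        exact hu.2 (t : G) ht (congrArg Subtype.val htu)
    exact le_trans (Set.ncard_le_ncard hsub (Set.toFinite _)) (Set.ncard_image_le (Set.toFinite _))
  have e7 : Nat.card (D.subgroupOf N) = Nat.card D := (t2 D hDN).1
  unfold Hyp at h ⊢
  rw [e3, e7]
  calc 2 * ((cz D).relIndex (TT M D θ ⊓ N) * Nat.card D) ≤ 2 * (iI M D θ * Nat.card D) :=
        Nat.mul_le_mul_left _ (Nat.mul_le_mul_right _ e5)
    _ < (p - 1) * (RG M D θ).ncard := h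
    _ ≤ _ := Nat.mul_le_mul_left _ e6

end Pool.Agent.FI4I
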