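import Pool.Agent.helper12.FI4.SpecX
import Pool.Agent.helper59.FI.Base

set_option autoImplicit false

namespace Pool.Agent.FI4

open Pool.Agent.helper58.DC Pool.Agent.DI Pool.Agent.GR Pool.Agent.OB Pool.Agent.DR Pool.Agent.FI Pool.Agent.FI3

theorem X4_normal {G E A : Type} [Group G] [Group E] [Group A] (X : Extension G E A) : X.inc.range.Normal := by
  constructor
  rintro _ ⟨g, rfl⟩ e
  exact ⟨X.act e g, X.act_spec e g⟩

theorem X4 (hX1 : X1_stmt) (hB13 : B13_stmt) (hB11 : B11_stmt) (hC16 : C16_stmt) (hC10 : C10_stmt)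
    (hC1 : C1_stmt) (hEXB : EXB_stmt) (hIM : IM_stmt) : X4_stmt := by
  intro p M hM G E A _ _ _ _ _ X χ hχ hst D hD b hb hcov η hη hind η₀ hη₀ hov
  haveI : Fact p.Prime := ⟨hM.pr⟩
  have hinj := X.inc_injective
  have hK3 := ((hX1 G E A X M).2.2.1 D).1
  have h1 : η₀ ∈ IrrOn ((cz D).map X.inc) := by
    rw [← hK3]
    exact hη₀
  obtain ⟨b1, b2, b3, b4, b5, b6⟩ := hB13 G E p X.inc hinj (cz D)
  obtain ⟨θ₀, hθ₀⟩ := b3 η₀ h1
  have hθ : θ₀ ∈ IrrOn (cz D) := by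
    refine (b2 θ₀).2 ?_
    rw [hθ₀]
    exact h1
  obtain ⟨ψ, hψ, hSB⟩ := hEXB p M hM G ⊤ D hD le_top θ₀ (by rw [top_inf_eq]; exact hθ)
  have hi : Induces M θ₀ ψ := (SB_top_iff hM).1 hSB
  have hψI : ψ ∈ Irr G := IrrOn_top.1 hψ
  refine ⟨θ₀, hθ, hθ₀.symm, ?_⟩
  obtain ⟨c1, c2, c3, -⟩ := hC1 p M hM.max hM.mem
  have key : ∀ g ∈ X.inc.range, Mcong M (omega (ext0 X.inc ψ) g) (omega (ext0 X.inc χ) g) := by
    intro g hg
    have e1 : Mcong M (omega (ext0 X.inc θ₀) g) (omega (ext0 X.inc ψ) g) :=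
      hC16 G E p M hM.max hM.mem X.inc hinj θ₀ ψ hi g
    have e2 : omega η g = omega η₀ g :=
      hB11 E X.inc.range (cz (D.map X.inc)) (X4_normal X) η hη η₀ hη₀ hov g hg
    have e3 : Mcong M (omega η g) (omega b g) := hind g
    have e4 : Mcong M (omega b g) (omega (ext0 X.inc χ) g) := hcov g hg
    rw [hθ₀] at e1
    rw [e2] at e3
    exact c3 _ _ _ (c2 _ _ e1) (c3 _ _ _ e3 e4)
  have h2 := hC10 G E A X p M hM.max hM.mem ψ hψI χ hχ hst key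
  exact (hIM G M θ₀ ψ χ).2.2.1 hi h2

end Pool.Agent.FI4
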